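import Pool.Agent.Lib.MP_3e612f_nt.Loc.KthB

/-!
LOCAL, exponential sums: the `k`-th derivative test for `n ^ (i t)`, with a power saving for
`A ^ η ≤ |t| ≤ A ^ K`, uniform in the (real) starting point `A`.
-/

set_option autoImplicit false

namespace Pool.Agent.Lib.MP_3e612f_nt.Loc

theorem split_sum (f : ℕ → ℂ) (X L : ℕ) (hL : 0 < L) :
    ∑ n ∈ Finset.range X, f n =
      ∑ r ∈ Finset.range L, ∑ x ∈ Finset.range ((X - r + (L - 1)) / L), f (L * x + r) := by
  rw [← Finset.sum_fiberwise_of_maps_to (g := fun n => n % L) (t := Finset.range L)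
    (fun n _ => Finset.mem_range.2 (Nat.mod_lt _ hL))]
  refine Finset.sum_congr rfl fun r hr => ?_
  have hr := Finset.mem_range.1 hr
  symm
  refine Finset.sum_nbij' (fun x => L * x + r) (fun n => n / L) ?_ ?_ ?_ ?_ ?_
  · intro x hx
    rw [Finset.mem_range, Nat.lt_iff_add_one_le, Nat.le_div_iff_mul_le hL, add_mul, one_mul,
      mul_comm x L] at hx
    rw [Finset.mem_filter, Finset.mem_range]
    constructor
    · omega
    · rw [Nat.mul_add_mod, Nat.mod_eq_of_lt hr]
  · intro n hn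
    rw [Finset.mem_filter, Finset.mem_range] at hn
    rw [Finset.mem_range, Nat.lt_iff_add_one_le, Nat.le_div_iff_mul_le hL, add_mul, one_mul,
      mul_comm (n / L) L]
    have := Nat.div_add_mod n L
    omega
  · intro x _
    change (L * x + r) / L = x
    rw [Nat.mul_add_div hL, Nat.div_eq_of_lt hr, add_zero]
  · intro n hn
    rw [Finset.mem_filter, Finset.mem_range] at hn
    change L * (n / L) + r = n
    have := Nat.div_add_mod n L
    omega
  · intro x _
    rfl

theorem split_E {L : ℕ} (hL : 0 < L) {A : ℝ} (hA : 1 ≤ A) (t : ℝ) (x r : ℕ) :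
    E (t * Real.log (((L * x + r : ℕ) : ℝ) + A)) =
      E (t * Real.log L) * E (t * Real.log (x + (A + r) / L)) := by
  have hL0 : (0 : ℝ) < L := by exact_mod_cast hL
  have hx : (0 : ℝ) ≤ x := by positivity
  have hr : (0 : ℝ) ≤ r := by positivity
  have h1 : (0 : ℝ) < x + (A + r) / L := by positivity
  rw [← E_add, ← mul_add, ← Real.log_mul hL0.ne' h1.ne']
  congr 3
  push_cast
  field_simp
  ring

/-- the constant -/
noncomputable def Y0 (K : ℕ) : ℝ := 64 * 16 ^ K * K.factorial * (K + 1)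

/-- **The `k`-th derivative test**, polynomial form: `A = y ^ M`. -/
theorem kth_aux {K M : ℕ} (hM : 5 * K + 8 ≤ M) {y t : ℝ} (hy : Y0 K ≤ y) (ht1 : y ^ 3 ≤ |t|)
    (ht2 : |t| ≤ (y ^ M) ^ K) {X : ℕ} (hX : (X : ℝ) ≤ y ^ M) :
    ‖∑ n ∈ Finset.range X, E (t * Real.log (n + y ^ M))‖ ≤
      16 * y ^ M * y ^ (-(1 / 2 ^ K : ℝ)) := by
  have hf1 : (1 : ℝ) ≤ K.factorial := by exact_mod_cast Nat.succ_le_of_lt K.factorial_pos
  have h16 : (1 : ℝ) ≤ 16 ^ K := one_le_pow₀ (by norm_num)
  have hY64 : 64 * ((K : ℝ) + 1) ≤ Y0 K := by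
    unfold Y0
    have : (1 : ℝ) ≤ 16 ^ K * K.factorial := one_le_mul_of_one_le_of_one_le h16 hf1
    have h2 : (0 : ℝ) ≤ (K : ℝ) + 1 := by positivity
    nlinarith
  have hK0 : (0 : ℝ) ≤ K := by positivity
  have hy64 : 64 ≤ y := by linarith
  have hy1 : 1 ≤ y := by linarith
  have hy0 : 0 < y := by linarith
  set A : ℝ := y ^ M with hAdef
  have hA1 : 1 ≤ A := one_le_pow₀ hy1
  have hA0 : 0 < A := by linarith
  have hpow : ∀ a b : ℕ, a ≤ b → y ^ a ≤ y ^ b := fun a b h => pow_le_pow_right₀ hy1 h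
  -- the integers H and L
  set H : ℕ := ⌈y⌉₊ with hHdef
  have hHy : y ≤ H := Nat.le_ceil y
  have hH2 : (H : ℝ) ≤ 2 * y := by
    have := Nat.ceil_lt_add_one hy0.le
    linarith
  have hH1 : 1 ≤ H := by
    have : (1 : ℝ) ≤ H := hy1.trans hHy
    exact_mod_cast this
  have hH0 : (0 : ℝ) ≤ H := by positivity
  set L : ℕ := ⌈y ^ 4⌉₊ with hLdef
  have hy4 : 1 ≤ y ^ 4 := one_le_pow₀ hy1
  have hLy : y ^ 4 ≤ L := Nat.le_ceil _
  have hL2 : (L : ℝ) ≤ 2 * y ^ 4 := by
    have := Nat.ceil_lt_add_one (show 0 ≤ y ^ 4 by positivity)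
    linarith
  have hL1 : 1 ≤ L := by
    have : (1 : ℝ) ≤ L := hy4.trans hLy
    exact_mod_cast this
  have hL0 : (0 : ℝ) < L := by exact_mod_cast hL1
  -- the saving
  have huu : ∀ j ≤ K, uu H j ≤ y ^ (-(1 / 2 ^ K : ℝ)) := by
    intro j hj
    unfold uu
    have h1 : (H : ℝ) ^ (-(1 / 2 ^ j : ℝ)) ≤ y ^ (-(1 / 2 ^ j : ℝ)) :=
      Real.rpow_le_rpow_of_nonpos hy0 hHy (by
        have : (0 : ℝ) < 1 / 2 ^ j := by positivity
        linarith)
    refine h1.trans (Real.rpow_le_rpow_of_exponent_le hy1 ?_)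
    have h2 : (2 : ℝ) ^ j ≤ 2 ^ K := pow_le_pow_right₀ (by norm_num) hj
    have h3 : (1 : ℝ) / 2 ^ K ≤ 1 / 2 ^ j := one_div_le_one_div_of_le (by positivity) h2
    linarith
  -- the window
  have hex : ∃ j, |t| * (j.factorial : ℝ) * (H : ℝ) ^ j ≤ A ^ (j + 1) := by
    refine ⟨K, ?_⟩
    calc |t| * (K.factorial : ℝ) * (H : ℝ) ^ K ≤ A ^ K * (K.factorial : ℝ) * (2 * y) ^ K := by
          gcongr
      _ = A ^ K * ((2 ^ K * K.factorial) * y ^ K) := by rw [mul_pow]; ring
      _ ≤ A ^ K * (y * y ^ K) := by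
          refine mul_le_mul_of_nonneg_left ?_ (by positivity)
          refine mul_le_mul_of_nonneg_right ?_ (by positivity)
          refine le_trans ?_ hy
          unfold Y0
          have h2 : (2 : ℝ) ^ K ≤ 16 ^ K := pow_le_pow_left₀ (by norm_num) (by norm_num) K
          have h3 : (0 : ℝ) < 16 ^ K * K.factorial := by positivity
          calc (2 : ℝ) ^ K * K.factorial ≤ 16 ^ K * K.factorial := by gcongr
            _ ≤ 64 * 16 ^ K * K.factorial * (K + 1) := by nlinarith
      _ = A ^ K * y ^ (K + 1) := by ring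
      _ ≤ A ^ K * y ^ M := mul_le_mul_of_nonneg_left (hpow _ _ (by omega)) (by positivity)
      _ = A ^ (K + 1) := by rw [← hAdef]; ring
  classical
  obtain ⟨j, hj, hmin⟩ : ∃ j, |t| * (j.factorial : ℝ) * (H : ℝ) ^ j ≤ A ^ (j + 1) ∧
      ∀ i < j, ¬ |t| * (i.factorial : ℝ) * (H : ℝ) ^ i ≤ A ^ (i + 1) :=
    ⟨Nat.find hex, Nat.find_spec hex, fun i hi => Nat.find_min hex hi⟩
  have hjK : j ≤ K := by
    by_contra hne
    refine hmin K (by omega) ?_
    calc |t| * (K.factorial : ℝ) * (H : ℝ) ^ K ≤ A ^ K * (K.factorial : ℝ) * (2 * y) ^ K := by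
          gcongr
      _ = A ^ K * ((2 ^ K * K.factorial) * y ^ K) := by rw [mul_pow]; ring
      _ ≤ A ^ K * (y * y ^ K) := by
          refine mul_le_mul_of_nonneg_left ?_ (by positivity)
          refine mul_le_mul_of_nonneg_right ?_ (by positivity)
          refine le_trans ?_ hy
          unfold Y0
          have h2 : (2 : ℝ) ^ K ≤ 16 ^ K := pow_le_pow_left₀ (by norm_num) (by norm_num) K
          have h3 : (0 : ℝ) < 16 ^ K * K.factorial := by positivity
          calc (2 : ℝ) ^ K * K.factorial ≤ 16 ^ K * K.factorial := by gcongr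
            _ ≤ 64 * 16 ^ K * K.factorial * (K + 1) := by nlinarith
      _ = A ^ K * y ^ (K + 1) := by ring
      _ ≤ A ^ K * y ^ M := mul_le_mul_of_nonneg_left (hpow _ _ (by omega)) (by positivity)
      _ = A ^ (K + 1) := by rw [← hAdef]; ring
  have hjr : (j : ℝ) ≤ K := by exact_mod_cast hjK
  have hjf : (j.factorial : ℝ) ≤ K.factorial := by exact_mod_cast Nat.factorial_le hjK
  have hjf1 : (1 : ℝ) ≤ j.factorial := by exact_mod_cast Nat.succ_le_of_lt j.factorial_pos
  have hH3 : 2 * (H : ℝ) ^ 3 ≤ 16 * y ^ 3 := by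
    have := pow_le_pow_left₀ hH0 hH2 3
    calc 2 * (H : ℝ) ^ 3 ≤ 2 * (2 * y) ^ 3 := by linarith
      _ = 16 * y ^ 3 := by ring
  have hA8 : y ^ 8 ≤ A := hpow _ _ (by omega)
  rcases le_or_gt (8 * 4 ^ j * (H : ℝ) ^ 2 * A ^ j) |t| with hw | hw
  · -- `L = 1`
    refine (window hA1 hH1 (hX.trans (by linarith)) ?_ ?_ hj hw).trans ?_
    · calc ((j : ℝ) + 1) * H ≤ (K + 1) * (2 * y) := by gcongr
        _ ≤ y * y := by nlinarith
        _ = y ^ 2 := by ring
        _ ≤ A := hpow _ _ (by omega)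
    · calc 2 * (H : ℝ) ^ 3 ≤ 16 * y ^ 3 := hH3
        _ ≤ y * y ^ 3 := mul_le_mul_of_nonneg_right (by linarith) (by positivity)
        _ = y ^ 4 := by ring
        _ ≤ A := hpow _ _ (by omega)
    · have h1 := huu j hjK
      have h2 := uu_pos hH1 j
      calc 8 * A * uu H j ≤ 8 * A * y ^ (-(1 / 2 ^ K : ℝ)) :=
            mul_le_mul_of_nonneg_left h1 (by positivity)
        _ ≤ 16 * A * y ^ (-(1 / 2 ^ K : ℝ)) := by
            have h3 : 0 < A * y ^ (-(1 / 2 ^ K : ℝ)) := by positivity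
            nlinarith
  · -- splitting into residue classes
    have hj1 : 1 ≤ j := by
      by_contra hne
      have : j = 0 := by omega
      subst this
      have h1 : 8 * 4 ^ 0 * (H : ℝ) ^ 2 * A ^ 0 ≤ y ^ 3 := by
        have := pow_le_pow_left₀ hH0 hH2 2
        calc 8 * 4 ^ 0 * (H : ℝ) ^ 2 * A ^ 0 = 8 * (H : ℝ) ^ 2 := by ring
          _ ≤ 8 * (2 * y) ^ 2 := by linarith
          _ = 32 * y ^ 2 := by ring
          _ ≤ y * y ^ 2 := mul_le_mul_of_nonneg_right (by linarith) (by positivity)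
          _ = y ^ 3 := by ring
      linarith
    obtain ⟨i, rfl⟩ : ∃ i, j = i + 1 := ⟨j - 1, by omega⟩
    have hi := hmin i (by omega)
    push Not at hi
    have hif : (i.factorial : ℝ) ≤ K.factorial := by
      exact_mod_cast Nat.factorial_le (by omega)
    have hif1 : (1 : ℝ) ≤ i.factorial := by exact_mod_cast Nat.succ_le_of_lt i.factorial_pos
    have hAL : y ^ 4 ≤ A / L := by
      rw [le_div_iff₀ hL0]
      calc y ^ 4 * L ≤ y ^ 4 * (2 * y ^ 4) := mul_le_mul_of_nonneg_left hL2 (by positivity)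
        _ = 2 * y ^ 8 := by ring
        _ ≤ y * y ^ 8 := mul_le_mul_of_nonneg_right (by linarith) (by positivity)
        _ = y ^ 9 := by ring
        _ ≤ A := hpow _ _ (by omega)
    have hAL1 : 1 ≤ A / L := hy4.trans hAL
    have hLA : (L : ℝ) ≤ A := by
      rw [le_div_iff₀ hL0] at hAL1
      linarith
    rw [split_sum _ X L hL1]
    have hr : ∀ r ∈ Finset.range L, ‖∑ x ∈ Finset.range ((X - r + (L - 1)) / L),
        E (t * Real.log (((L * x + r : ℕ) : ℝ) + A))‖ ≤
          16 * (A / L) * y ^ (-(1 / 2 ^ K : ℝ)) := by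
      intro r hr
      have hrL : (r : ℝ) ≤ L := by exact_mod_cast (Finset.mem_range.1 hr).le
      have hr0 : (0 : ℝ) ≤ r := by positivity
      simp only [split_E hL1 hA1]
      rw [← Finset.mul_sum, norm_mul, norm_E, one_mul]
      have hA'1 : A / L ≤ (A + r) / L := by gcongr; linarith
      have hA'2 : (A + r) / L ≤ 2 * (A / L) := by
        rw [div_le_iff₀ hL0]
        have : 2 * (A / L) * L = 2 * A := by field_simp
        rw [this]
        linarith
      have hXr : (((X - r + (L - 1)) / L : ℕ) : ℝ) ≤ 2 * ((A + r) / L) := by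
        have h1 : (((X - r + (L - 1)) / L : ℕ) : ℝ) ≤ ((X - r + (L - 1) : ℕ) : ℝ) / L :=
          Nat.cast_div_le
        have h2 : ((X - r + (L - 1) : ℕ) : ℝ) ≤ A + L := by
          have h3 : ((X - r + (L - 1) : ℕ) : ℝ) ≤ ((X + L : ℕ) : ℝ) := by
            exact_mod_cast (by omega : X - r + (L - 1) ≤ X + L)
          push_cast at h3 ⊢
          linarith
        have h4 : ((X - r + (L - 1) : ℕ) : ℝ) / L ≤ (A + L) / L := by gcongr
        have h5 : (A + L) / L = A / L + 1 := by field_simp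
        linarith
      have hy4' : y ^ 4 ≤ (A + r) / L := hAL.trans hA'1
      refine (window (j := i + 1) (hAL1.trans hA'1) hH1 hXr ?_ ?_ ?_ ?_).trans ?_
      · push_cast at hjr ⊢
        calc ((i : ℝ) + 1 + 1) * H ≤ (K + 1) * (2 * y) := by gcongr
          _ ≤ y * y := by nlinarith
          _ = y ^ 2 := by ring
          _ ≤ y ^ 4 := hpow _ _ (by omega)
          _ ≤ (A + r) / L := hy4'
      · calc 2 * (H : ℝ) ^ 3 ≤ 16 * y ^ 3 := hH3
          _ ≤ y * y ^ 3 := mul_le_mul_of_nonneg_right (by linarith) (by positivity)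
          _ = y ^ 4 := by ring
          _ ≤ (A + r) / L := hy4'
      · have h1 : |t| * ((i + 1).factorial : ℝ) * (H : ℝ) ^ (i + 1) ≤
            (A / L) ^ (i + 1 + 1) := by
          rw [div_pow, le_div_iff₀ (by positivity)]
          calc |t| * ((i + 1).factorial : ℝ) * (H : ℝ) ^ (i + 1) * (L : ℝ) ^ (i + 1 + 1) ≤
                (8 * 4 ^ (i + 1) * (H : ℝ) ^ 2 * A ^ (i + 1)) * ((i + 1).factorial : ℝ) *
                  (H : ℝ) ^ (i + 1) * (L : ℝ) ^ (i + 1 + 1) := by gcongr
            _ = A ^ (i + 1) * (8 * 4 ^ (i + 1) * ((i + 1).factorial : ℝ) *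
                  ((H : ℝ) ^ (i + 3) * (L : ℝ) ^ (i + 2))) := by ring
            _ ≤ A ^ (i + 1) * (8 * 4 ^ (i + 1) * ((i + 1).factorial : ℝ) *
                  ((2 * y) ^ (i + 3) * (2 * y ^ 4) ^ (i + 2))) := by gcongr
            _ = A ^ (i + 1) * ((64 * 16 ^ (i + 1) * ((i + 1).factorial : ℝ)) *
                  y ^ (5 * i + 11)) := by
                have e1 : (16 : ℝ) ^ (i + 1) = 4 ^ (i + 1) * (2 ^ (i + 1) * 2 ^ (i + 1)) := by
                  rw [← mul_pow, ← mul_pow]
                  norm_num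
                rw [e1, mul_pow, mul_pow, ← pow_mul]
                ring
            _ ≤ A ^ (i + 1) * (y * y ^ (5 * i + 11)) := by
                refine mul_le_mul_of_nonneg_left ?_ (by positivity)
                refine mul_le_mul_of_nonneg_right ?_ (by positivity)
                refine le_trans ?_ hy
                unfold Y0
                have h2 : (16 : ℝ) ^ (i + 1) ≤ 16 ^ K := pow_le_pow_right₀ (by norm_num) hjK
                have h3 : (0 : ℝ) < 16 ^ K * K.factorial := by positivity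
                calc (64 : ℝ) * 16 ^ (i + 1) * ((i + 1).factorial : ℝ) ≤
                      64 * 16 ^ K * K.factorial := by gcongr
                  _ ≤ 64 * 16 ^ K * K.factorial * (K + 1) := by nlinarith
            _ = A ^ (i + 1) * y ^ (5 * i + 12) := by ring
            _ ≤ A ^ (i + 1) * y ^ M :=
                mul_le_mul_of_nonneg_left (hpow _ _ (by omega)) (by positivity)
            _ = A ^ (i + 1 + 1) := by rw [← hAdef]; ring
        exact h1.trans (pow_le_pow_left₀ (by positivity) hA'1 _)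
      · have hiH : 0 < (i.factorial : ℝ) * (H : ℝ) ^ i := by positivity
        have h1 : A ^ (i + 1) / ((i.factorial : ℝ) * (H : ℝ) ^ i) ≤ |t| := by
          rw [div_le_iff₀ hiH]
          linarith
        refine le_trans ?_ h1
        rw [le_div_iff₀ hiH]
        calc 8 * 4 ^ (i + 1) * (H : ℝ) ^ 2 * ((A + r) / L) ^ (i + 1) *
              ((i.factorial : ℝ) * (H : ℝ) ^ i) ≤
              8 * 4 ^ (i + 1) * (H : ℝ) ^ 2 * (2 * (A / L)) ^ (i + 1) *
              ((i.factorial : ℝ) * (H : ℝ) ^ i) := by gcongr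
          _ = (8 * (4 ^ (i + 1) * 2 ^ (i + 1)) * (i.factorial : ℝ) * (H : ℝ) ^ (i + 2)) *
                (A ^ (i + 1) / (L : ℝ) ^ (i + 1)) := by
              rw [mul_pow, div_pow]
              ring
          _ ≤ (8 * (4 ^ (i + 1) * 2 ^ (i + 1)) * (i.factorial : ℝ) * (2 * y) ^ (i + 2)) *
                (A ^ (i + 1) / (L : ℝ) ^ (i + 1)) := by gcongr
          _ = ((16 * 16 ^ (i + 1) * (i.factorial : ℝ)) * y ^ (i + 2)) *
                (A ^ (i + 1) / (L : ℝ) ^ (i + 1)) := by
              have e1 : (16 : ℝ) ^ (i + 1) = 4 ^ (i + 1) * 2 ^ (i + 1) * 2 ^ (i + 1) := by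
                rw [← mul_pow, ← mul_pow]
                norm_num
              rw [e1, mul_pow]
              ring
          _ ≤ (y * y ^ (i + 2)) * (A ^ (i + 1) / (L : ℝ) ^ (i + 1)) := by
              refine mul_le_mul_of_nonneg_right ?_ (by positivity)
              refine mul_le_mul_of_nonneg_right ?_ (by positivity)
              refine le_trans ?_ hy
              unfold Y0
              have h2 : (16 : ℝ) ^ (i + 1) ≤ 16 ^ K := pow_le_pow_right₀ (by norm_num) hjK
              have h3 : (0 : ℝ) < 16 ^ K * K.factorial := by positivity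
              calc (16 : ℝ) * 16 ^ (i + 1) * (i.factorial : ℝ) ≤
                    64 * 16 ^ K * K.factorial := by gcongr; norm_num
                _ ≤ 64 * 16 ^ K * K.factorial * (K + 1) := by nlinarith
          _ = y ^ (i + 3) * (A ^ (i + 1) / (L : ℝ) ^ (i + 1)) := by ring
          _ ≤ (y ^ 4) ^ (i + 1) * (A ^ (i + 1) / (L : ℝ) ^ (i + 1)) := by
              refine mul_le_mul_of_nonneg_right ?_ (by positivity)
              rw [← pow_mul]
              exact hpow _ _ (by omega)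
          _ ≤ (L : ℝ) ^ (i + 1) * (A ^ (i + 1) / (L : ℝ) ^ (i + 1)) := by gcongr
          _ = A ^ (i + 1) := by field_simp
      · have h1 := huu (i + 1) hjK
        have h2 := uu_pos hH1 (i + 1)
        calc 8 * ((A + r) / L) * uu H (i + 1) ≤
              8 * (2 * (A / L)) * y ^ (-(1 / 2 ^ K : ℝ)) := by
              gcongr
          _ = 16 * (A / L) * y ^ (-(1 / 2 ^ K : ℝ)) := by ring
    refine (norm_sum_le _ _).trans ((Finset.sum_le_card_nsmul _ _ _ hr).trans (le_of_eq ?_))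
    rw [Finset.card_range, nsmul_eq_mul]
    field_simp

/-- **The `k`-th derivative test** for `exp (i t log (n + A))`, with a power saving. -/
theorem kth (K : ℕ) {η : ℝ} (hη : 0 < η) : ∃ C : ℝ, 0 < C ∧ ∃ δ : ℝ, 0 < δ ∧
    ∀ A : ℝ, 1 ≤ A → ∀ X : ℕ, (X : ℝ) ≤ A → ∀ t : ℝ, A ^ η ≤ |t| → |t| ≤ A ^ K →
      ‖∑ n ∈ Finset.range X, E (t * Real.log (n + A))‖ ≤ C * A ^ (1 - δ) := by
  obtain ⟨M₀, hM₀⟩ := exists_nat_ge (3 / η)
  set M : ℕ := max M₀ (5 * K + 8) with hM
  have hM1 : 5 * K + 8 ≤ M := le_max_right _ _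
  have hM2 : 3 / η ≤ M := hM₀.trans (by exact_mod_cast le_max_left _ _)
  have hMpos : (0 : ℝ) < M := by
    have : 0 < M := by omega
    exact_mod_cast this
  have hY0 : 0 < Y0 K := by
    unfold Y0
    positivity
  refine ⟨16 + Y0 K ^ M, by positivity, 1 / (M * 2 ^ K), by positivity, ?_⟩
  intro A hA X hX t ht1 ht2
  have hA0 : 0 < A := by linarith
  set y : ℝ := A ^ (1 / (M : ℝ)) with hy
  have hy0 : 0 < y := Real.rpow_pos_of_pos hA0 _
  have hyM : y ^ M = A := by
    rw [hy, ← Real.rpow_natCast, ← Real.rpow_mul hA0.le]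
    rw [one_div, inv_mul_cancel₀ hMpos.ne', Real.rpow_one]
  have hA' : 0 < A ^ (1 - 1 / ((M : ℝ) * 2 ^ K)) := Real.rpow_pos_of_pos hA0 _
  rcases le_or_gt (Y0 K) y with hY | hY
  · have h1 : y ^ 3 ≤ |t| := by
      refine le_trans ?_ ht1
      rw [hy, ← Real.rpow_natCast, ← Real.rpow_mul hA0.le]
      apply Real.rpow_le_rpow_of_exponent_le hA
      rw [div_le_iff₀ hη] at hM2
      rw [one_div, inv_mul_le_iff₀ hMpos]
      push_cast
      linarith
    have h2 := kth_aux hM1 hY h1 (by rw [hyM]; exact ht2) (X := X) (by rw [hyM]; exact hX)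
    rw [hyM] at h2
    refine h2.trans ?_
    have h3 : A * y ^ (-(1 / 2 ^ K : ℝ)) = A ^ (1 - 1 / ((M : ℝ) * 2 ^ K)) := by
      rw [hy, ← Real.rpow_mul hA0.le, sub_eq_add_neg, Real.rpow_add hA0, Real.rpow_one]
      congr 2
      field_simp
    rw [mul_assoc, h3]
    refine mul_le_mul_of_nonneg_right ?_ hA'.le
    have : 0 < Y0 K ^ M := by positivity
    linarith
  · refine (norm_sum_le _ _).trans ?_
    simp only [norm_E, Finset.sum_const, Finset.card_range, nsmul_eq_mul, mul_one]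
    have h1 : A ≤ Y0 K ^ M := by
      rw [← hyM]
      exact pow_le_pow_left₀ hy0.le hY.le _
    have h2 : 1 ≤ A ^ (1 - 1 / ((M : ℝ) * 2 ^ K)) := by
      apply Real.one_le_rpow hA
      have h3 : (1 : ℝ) ≤ M * 2 ^ K := by
        have h4 : (1 : ℝ) ≤ M := by
          have : 1 ≤ M := by omega
          exact_mod_cast this
        have h5 : (1 : ℝ) ≤ 2 ^ K := one_le_pow₀ (by norm_num)
        nlinarith
      have h6 : 1 / ((M : ℝ) * 2 ^ K) ≤ 1 := by
        rw [div_le_one (by positivity)]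
        exact h3
      linarith
    have h3 : (0 : ℝ) < Y0 K ^ M := by positivity
    calc (X : ℝ) ≤ A := hX
      _ ≤ Y0 K ^ M := h1
      _ ≤ (16 + Y0 K ^ M) * 1 := by linarith
      _ ≤ (16 + Y0 K ^ M) * A ^ (1 - 1 / ((M : ℝ) * 2 ^ K)) :=
          mul_le_mul_of_nonneg_left h2 (by positivity)

end Pool.Agent.Lib.MP_3e612f_nt.Loc
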