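import Mathlib

/-!
LOCAL, exponential sums, part A: the discrete inequality of Kusmin and Landau and the inequality
of van der Corput, iterated.
-/

set_option autoImplicit false

namespace Pool.Agent.Lib.MP_3e612f_nt.Loc

/-- `exp (i x)` -/
noncomputable def E (x : ℝ) : ℂ := Complex.exp ((x : ℂ) * Complex.I)

theorem norm_E (x : ℝ) : ‖E x‖ = 1 := Complex.norm_exp_ofReal_mul_I x

theorem E_add (x y : ℝ) : E (x + y) = E x * E y := by
  unfold E
  rw [← Complex.exp_add]
  congr 1
  push_cast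
  ring

theorem E_neg (x : ℝ) : E (-x) = (starRingEnd ℂ) (E x) := by
  unfold E
  rw [← Complex.exp_conj]
  congr 1
  rw [map_mul, Complex.conj_I, Complex.conj_ofReal]
  push_cast
  ring

theorem E_sub (x y : ℝ) : E (x - y) = E x * (starRingEnd ℂ) (E y) := by
  rw [sub_eq_add_neg, E_add, E_neg]

theorem E_re (x : ℝ) : (E x).re = Real.cos x := Complex.exp_ofReal_mul_I_re x

theorem E_im (x : ℝ) : (E x).im = Real.sin x := Complex.exp_ofReal_mul_I_im x

/-- half the cotangent of `x / 2` -/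
noncomputable def hc (x : ℝ) : ℝ := Real.cos (x / 2) / (2 * Real.sin (x / 2))

theorem sin_half_pos {x : ℝ} (h0 : 0 < x) (h1 : x < 2 * Real.pi) : 0 < Real.sin (x / 2) :=
  Real.sin_pos_of_pos_of_lt_pi (by linarith) (by linarith)

/-- the inverse of `E x - 1` -/
theorem inv_eq {x : ℝ} (h0 : 0 < x) (h1 : x < 2 * Real.pi) :
    (E x - 1) * ((-1 / 2 : ℝ) - (hc x : ℝ) * Complex.I) = 1 := by
  have hs := sin_half_pos h0 h1
  have e1 : Real.cos x = 1 - 2 * Real.sin (x / 2) ^ 2 := by
    have := Real.cos_two_mul (x / 2)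
    rw [show 2 * (x / 2) = x by ring] at this
    have h2 := Real.sin_sq_add_cos_sq (x / 2)
    linarith
  have e2 : Real.sin x = 2 * Real.sin (x / 2) * Real.cos (x / 2) := by
    have := Real.sin_two_mul (x / 2)
    rw [show 2 * (x / 2) = x by ring] at this
    exact this
  have hc1 : 2 * Real.sin (x / 2) * hc x = Real.cos (x / 2) := by
    unfold hc
    field_simp
  have h2 := Real.sin_sq_add_cos_sq (x / 2)
  apply Complex.ext
  · simp only [Complex.mul_re, Complex.sub_re, Complex.sub_im, E_re, E_im, Complex.one_re,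
      Complex.one_im, Complex.ofReal_re, Complex.ofReal_im, Complex.mul_im, Complex.I_re,
      Complex.I_im]
    rw [e1, e2]
    linear_combination Real.cos (x / 2) * hc1 + h2
  · simp only [Complex.mul_im, Complex.sub_re, Complex.sub_im, E_re, E_im, Complex.one_re,
      Complex.one_im, Complex.ofReal_re, Complex.ofReal_im, Complex.mul_re, Complex.I_re,
      Complex.I_im]
    rw [e1, e2]
    linear_combination Real.sin (x / 2) * hc1

/-- the coefficient -/
noncomputable def cf (x : ℝ) : ℂ := ((-1 / 2 : ℝ) : ℂ) - (hc x : ℝ) * Complex.I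

theorem norm_cf {x θ : ℝ} (hθ : 0 < θ) (h0 : θ ≤ x) (h1 : x ≤ 2 * Real.pi - θ) :
    ‖cf x‖ ≤ Real.pi / (2 * θ) := by
  have hpi := Real.pi_pos
  have hx0 : 0 < x := by linarith
  have hx1 : x < 2 * Real.pi := by linarith
  have hs := sin_half_pos hx0 hx1
  have h2 := inv_eq hx0 hx1
  have h3 : ‖E x - 1‖ = 2 * Real.sin (x / 2) := by
    have e1 : Real.cos x = 1 - 2 * Real.sin (x / 2) ^ 2 := by
      have := Real.cos_two_mul (x / 2)
      rw [show 2 * (x / 2) = x by ring] at this
      have h2 := Real.sin_sq_add_cos_sq (x / 2)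
      linarith
    have h4 : ‖E x - 1‖ ^ 2 = (2 * Real.sin (x / 2)) ^ 2 := by
      rw [Complex.sq_norm, Complex.normSq_apply]
      simp only [Complex.sub_re, Complex.sub_im, E_re, E_im, Complex.one_re, Complex.one_im]
      have h5 := Real.sin_sq_add_cos_sq x
      nlinarith
    exact (pow_left_inj₀ (norm_nonneg _) (by positivity) two_ne_zero).1 h4
  have h4 : θ / Real.pi ≤ Real.sin (x / 2) := by
    rcases le_total (x / 2) (Real.pi / 2) with h | h
    · have := Real.mul_le_sin (x := x / 2) (by linarith) h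
      refine le_trans ?_ this
      rw [div_le_iff₀ hpi]
      field_simp
      linarith
    · have := Real.mul_le_sin (x := Real.pi - x / 2) (by linarith) (by linarith)
      rw [Real.sin_pi_sub] at this
      refine le_trans ?_ this
      rw [div_le_iff₀ hpi]
      field_simp
      linarith
  have h5 : ‖E x - 1‖ * ‖cf x‖ = 1 := by
    rw [← norm_mul]
    unfold cf
    rw [h2, norm_one]
  have h6 : 0 < 2 * (θ / Real.pi) := by positivity
  have h7 : 2 * (θ / Real.pi) * ‖cf x‖ ≤ 1 := by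
    rw [← h5, h3]
    exact mul_le_mul_of_nonneg_right (by linarith) (norm_nonneg _)
  rw [le_div_iff₀ (by positivity)]
  have h8 : 2 * (θ / Real.pi) * ‖cf x‖ * Real.pi = ‖cf x‖ * (2 * θ) := by
    field_simp
  rw [← h8]
  calc 2 * (θ / Real.pi) * ‖cf x‖ * Real.pi ≤ 1 * Real.pi :=
        mul_le_mul_of_nonneg_right h7 hpi.le
    _ = Real.pi := one_mul _

theorem hc_anti {x y : ℝ} (h0 : 0 < x) (hxy : x ≤ y) (h1 : y < 2 * Real.pi) : hc y ≤ hc x := by
  have hx := sin_half_pos h0 (hxy.trans_lt h1)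
  have hy := sin_half_pos (h0.trans_le hxy) h1
  have h2 : 0 ≤ Real.sin (y / 2 - x / 2) :=
    Real.sin_nonneg_of_nonneg_of_le_pi (by linarith) (by linarith)
  rw [Real.sin_sub] at h2
  unfold hc
  rw [div_le_div_iff₀ (by positivity) (by positivity)]
  nlinarith

theorem norm_cf_sub (x y : ℝ) : ‖cf x - cf y‖ = |hc x - hc y| := by
  have : cf x - cf y = ((-(hc x - hc y) : ℝ) : ℂ) * Complex.I := by
    unfold cf
    push_cast
    ring
  rw [this, norm_mul, Complex.norm_I, mul_one, Complex.norm_real, Real.norm_eq_abs, abs_neg]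

theorem abs_hc_le (x : ℝ) : |hc x| ≤ ‖cf x‖ := by
  have := Complex.abs_im_le_norm (cf x)
  unfold cf at this ⊢
  simpa using this

/-- **The inequality of Kusmin and Landau.** -/
theorem kusmin_landau {g : ℕ → ℝ} {X : ℕ} {θ : ℝ} (hθ : 0 < θ)
    (h0 : ∀ n < X, θ ≤ g (n + 1) - g n) (h1 : ∀ n < X, g (n + 1) - g n ≤ 2 * Real.pi - θ)
    (h2 : ∀ n, n + 1 < X → g (n + 2) - g (n + 1) ≤ g (n + 1) - g n) :
    ‖∑ n ∈ Finset.range X, E (g n)‖ ≤ 2 * Real.pi / θ := by
  have hpi := Real.pi_pos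
  set d : ℕ → ℝ := fun n => g (n + 1) - g n with hd
  -- the terms
  have hterm : ∀ n < X, E (g n) = cf (d n) * (E (g (n + 1)) - E (g n)) := by
    intro n hn
    have e1 : E (g (n + 1)) = E (g n) * E (d n) := by
      rw [← E_add]
      congr 1
      rw [hd]
      ring
    have h3 := inv_eq (x := d n) (hθ.trans_le (h0 n hn)) (by have := h1 n hn; simp only [hd]; linarith)
    rw [e1]
    unfold cf
    linear_combination (-E (g n)) * h3
  -- partial summation
  have key : ∀ m, m < X → ‖∑ n ∈ Finset.range (m + 1), E (g n) - cf (d m) * E (g (m + 1))‖ ≤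
      ‖cf (d 0)‖ + (hc (d m) - hc (d 0)) := by
    intro m
    induction m with
    | zero =>
      intro hm
      rw [Finset.sum_range_one, hterm 0 hm]
      have : cf (d 0) * (E (g (0 + 1)) - E (g 0)) - cf (d 0) * E (g (0 + 1)) =
          -(cf (d 0) * E (g 0)) := by ring
      rw [this, norm_neg, norm_mul, norm_E]
      simp
    | succ m ih =>
      intro hm
      have ih := ih (by omega)
      rw [Finset.sum_range_succ]
      have e1 : ∑ n ∈ Finset.range (m + 1), E (g n) + E (g (m + 1)) -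
          cf (d (m + 1)) * E (g (m + 1 + 1)) =
          (∑ n ∈ Finset.range (m + 1), E (g n) - cf (d m) * E (g (m + 1))) +
            (cf (d m) - cf (d (m + 1))) * E (g (m + 1)) := by
        have := hterm (m + 1) hm
        linear_combination this
      rw [e1]
      refine (norm_add_le _ _).trans ?_
      rw [norm_mul, norm_E, mul_one, norm_cf_sub]
      have h3 : hc (d m) ≤ hc (d (m + 1)) := by
        refine hc_anti (hθ.trans_le (h0 (m + 1) hm)) (h2 m hm) ?_
        have := h1 m (by omega)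
        linarith
      rw [abs_sub_comm, abs_of_nonneg (by linarith)]
      linarith
  rcases Nat.eq_zero_or_pos X with hX | hX
  · rw [hX]
    simp only [Finset.range_zero, Finset.sum_empty, norm_zero]
    positivity
  · obtain ⟨m, rfl⟩ : ∃ m, X = m + 1 := ⟨X - 1, by omega⟩
    have h3 := key m (by omega)
    have b0 := norm_cf hθ (h0 0 (by omega)) (h1 0 (by omega))
    have bm := norm_cf hθ (h0 m (by omega)) (h1 m (by omega))
    have a0 := abs_le.1 (abs_hc_le (d 0))
    have am := abs_le.1 (abs_hc_le (d m))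
    have h4 : ‖∑ n ∈ Finset.range (m + 1), E (g n)‖ ≤
        ‖∑ n ∈ Finset.range (m + 1), E (g n) - cf (d m) * E (g (m + 1))‖ + ‖cf (d m)‖ := by
      have := norm_add_le (∑ n ∈ Finset.range (m + 1), E (g n) - cf (d m) * E (g (m + 1)))
        (cf (d m) * E (g (m + 1)))
      rw [sub_add_cancel, norm_mul, norm_E, mul_one] at this
      exact this
    have h5 : 2 * Real.pi / θ = 4 * (Real.pi / (2 * θ)) := by
      field_simp
      ring
    rw [h5]
    have : ‖cf (d 0)‖ ≤ Real.pi / (2 * θ) := b0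
    have : ‖cf (d m)‖ ≤ Real.pi / (2 * θ) := bm
    linarith [a0.1, a0.2, am.1, am.2]

/-! ### the inequality of van der Corput -/

theorem shift_sum {V : ℕ → ℂ} (hV : ∀ n, ‖V n‖ ≤ 1) (X j : ℕ) :
    ‖∑ n ∈ Finset.range X, V (n + j) - ∑ n ∈ Finset.range X, V n‖ ≤ 2 * j := by
  induction j with
  | zero => simp
  | succ j ih =>
    have e : ∑ n ∈ Finset.range X, V (n + (j + 1)) =
        ∑ n ∈ Finset.range X, V (n + j) + (V (X + j) - V j) := by
      have h1 := Finset.sum_range_succ' (fun n => V (n + j)) X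
      rw [Finset.sum_range_succ] at h1
      simp only [zero_add] at h1
      have e1 : ∀ n, V (n + (j + 1)) = V (n + 1 + j) := fun n => by congr 1; ring
      simp only [e1]
      linear_combination -h1
    rw [e]
    have e2 : ∑ n ∈ Finset.range X, V (n + j) + (V (X + j) - V j) - ∑ n ∈ Finset.range X, V n =
        (∑ n ∈ Finset.range X, V (n + j) - ∑ n ∈ Finset.range X, V n) + (V (X + j) - V j) := by
      ring
    rw [e2]
    have h2 : ‖V (X + j) - V j‖ ≤ 2 := by
      refine (norm_sub_le _ _).trans ?_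
      have := hV (X + j)
      have := hV j
      linarith
    refine (norm_add_le _ _).trans ?_
    push_cast
    linarith

theorem vdc {X H : ℕ} (hX : 1 ≤ X) (hH : 1 ≤ H) {U : ℕ → ℂ} (hU : ∀ n, ‖U n‖ ≤ 1) {δ : ℝ}
    (hδ0 : 0 ≤ δ) (hδ : ∀ s, 1 ≤ s → s < H →
      ‖∑ n ∈ Finset.range X, U (n + s) * (starRingEnd ℂ) (U n)‖ ≤ δ * X) :
    ‖∑ n ∈ Finset.range X, U n‖ ≤ 2 * H + X * Real.sqrt (1 / H + δ + 2 * H / X) := by
  have hXr : (0 : ℝ) < X := by exact_mod_cast hX
  have hHr : (0 : ℝ) < H := by exact_mod_cast hH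
  -- the correlations
  have hcor : ∀ j < H, ∀ j' < H, j' < j →
      ‖∑ n ∈ Finset.range X, U (n + j) * (starRingEnd ℂ) (U (n + j'))‖ ≤ δ * X + 2 * H := by
    intro j hj j' hj' hlt
    have h1 := shift_sum (V := fun n => U (n + (j - j')) * (starRingEnd ℂ) (U n)) (fun n => by
      rw [norm_mul, RCLike.norm_conj]
      have := mul_le_mul (hU (n + (j - j'))) (hU n) (norm_nonneg _) zero_le_one
      simpa using this) X j'
    have h2 := hδ (j - j') (by omega) (by omega)
    have e : ∀ n, n + j' + (j - j') = n + j := fun n => by omega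
    simp only [e] at h1
    have h3 : (j' : ℝ) ≤ H := by exact_mod_cast hj'.le
    have h4 := norm_sub_norm_le
      (∑ n ∈ Finset.range X, U (n + j) * (starRingEnd ℂ) (U (n + j')))
      (∑ n ∈ Finset.range X, U (n + (j - j')) * (starRingEnd ℂ) (U n))
    linarith
  have hcor' : ∀ j < H, ∀ j' < H, j ≠ j' →
      ‖∑ n ∈ Finset.range X, U (n + j) * (starRingEnd ℂ) (U (n + j'))‖ ≤ δ * X + 2 * H := by
    intro j hj j' hj' hne
    rcases Nat.lt_or_ge j' j with h | h
    · exact hcor j hj j' hj' h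
    · have := hcor j' hj' j hj (by omega)
      rw [← RCLike.norm_conj] at this
      rw [map_sum] at this
      refine le_trans (le_of_eq ?_) this
      congr 1
      refine Finset.sum_congr rfl fun n _ => ?_
      rw [map_mul, Complex.conj_conj, mul_comm]
  set T : ℕ → ℂ := fun n => ∑ j ∈ Finset.range H, U (n + j) with hT
  have hsq : ∑ n ∈ Finset.range X, ‖T n‖ ^ 2 ≤ H * X + H ^ 2 * (δ * X + 2 * H) := by
    have e1 : ((∑ n ∈ Finset.range X, ‖T n‖ ^ 2 : ℝ) : ℂ) = ∑ j ∈ Finset.range H,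
        ∑ j' ∈ Finset.range H, ∑ n ∈ Finset.range X,
          U (n + j) * (starRingEnd ℂ) (U (n + j')) := by
      push_cast
      have e2 : ∀ n, ((‖T n‖ : ℂ)) ^ 2 = ∑ j ∈ Finset.range H, ∑ j' ∈ Finset.range H,
          U (n + j) * (starRingEnd ℂ) (U (n + j')) := by
        intro n
        rw [← Complex.mul_conj', hT, map_sum, Finset.sum_mul_sum]
      simp only [e2]
      rw [Finset.sum_comm]
      refine Finset.sum_congr rfl fun j _ => ?_
      rw [Finset.sum_comm]
    have h2 : ∑ n ∈ Finset.range X, ‖T n‖ ^ 2 =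
        ‖((∑ n ∈ Finset.range X, ‖T n‖ ^ 2 : ℝ) : ℂ)‖ := by
      rw [Complex.norm_real, Real.norm_of_nonneg]
      exact Finset.sum_nonneg fun n _ => by positivity
    rw [h2, e1]
    have h3 : ∀ j ∈ Finset.range H, ‖∑ j' ∈ Finset.range H, ∑ n ∈ Finset.range X,
        U (n + j) * (starRingEnd ℂ) (U (n + j'))‖ ≤ X + H * (δ * X + 2 * H) := by
      intro j hj
      rw [← Finset.add_sum_erase _ _ hj]
      refine (norm_add_le _ _).trans (add_le_add ?_ ?_)
      · refine (norm_sum_le _ _).trans ?_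
        refine (Finset.sum_le_card_nsmul _ _ 1 fun n _ => ?_).trans (by simp)
        rw [norm_mul, RCLike.norm_conj]
        have := mul_le_mul (hU (n + j)) (hU (n + j)) (norm_nonneg _) zero_le_one
        simpa using this
      · refine (norm_sum_le _ _).trans ?_
        refine (Finset.sum_le_card_nsmul _ _ (δ * X + 2 * H) fun j' hj' => ?_).trans ?_
        · exact hcor' j (Finset.mem_range.1 hj) j'
            (Finset.mem_range.1 (Finset.mem_of_mem_erase hj')) (Finset.ne_of_mem_erase hj').symm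
        · rw [nsmul_eq_mul]
          refine mul_le_mul_of_nonneg_right ?_ (by positivity)
          have := Finset.card_erase_le (s := Finset.range H) (a := j)
          rw [Finset.card_range] at this
          exact_mod_cast this
    refine (norm_sum_le _ _).trans ((Finset.sum_le_card_nsmul _ _ _ h3).trans (le_of_eq ?_))
    rw [Finset.card_range, nsmul_eq_mul]
    ring
  -- Cauchy-Schwarz
  have hcs : ‖∑ n ∈ Finset.range X, T n‖ ≤
      Real.sqrt (X * (H * X + H ^ 2 * (δ * X + 2 * H))) := by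
    apply Real.le_sqrt_of_sq_le
    have h1 := norm_sum_le (Finset.range X) T
    have h2 := sq_sum_le_card_mul_sum_sq (s := Finset.range X) (f := fun n => ‖T n‖)
    rw [Finset.card_range] at h2
    calc ‖∑ n ∈ Finset.range X, T n‖ ^ 2 ≤ (∑ n ∈ Finset.range X, ‖T n‖) ^ 2 :=
          pow_le_pow_left₀ (norm_nonneg _) h1 2
      _ ≤ X * ∑ n ∈ Finset.range X, ‖T n‖ ^ 2 := h2
      _ ≤ _ := mul_le_mul_of_nonneg_left hsq hXr.le
  -- the sum of `T`
  have hTS : ‖∑ n ∈ Finset.range X, T n - H * ∑ n ∈ Finset.range X, U n‖ ≤ 2 * H * H := by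
    have e1 : ∑ n ∈ Finset.range X, T n - H * ∑ n ∈ Finset.range X, U n =
        ∑ j ∈ Finset.range H, (∑ n ∈ Finset.range X, U (n + j) - ∑ n ∈ Finset.range X, U n) := by
      rw [Finset.sum_sub_distrib, Finset.sum_const, Finset.card_range, nsmul_eq_mul, hT,
        Finset.sum_comm]
    rw [e1]
    refine (norm_sum_le _ _).trans ?_
    refine (Finset.sum_le_card_nsmul _ _ (2 * (H : ℝ)) fun j hj => ?_).trans (le_of_eq ?_)
    · refine (shift_sum hU X j).trans ?_
      have : (j : ℝ) ≤ H := by exact_mod_cast (Finset.mem_range.1 hj).le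
      linarith
    · rw [Finset.card_range, nsmul_eq_mul]
      ring
  have h5 : (H : ℝ) * ‖∑ n ∈ Finset.range X, U n‖ ≤
      2 * H * H + Real.sqrt (X * (H * X + H ^ 2 * (δ * X + 2 * H))) := by
    have e1 : (H : ℝ) * ‖∑ n ∈ Finset.range X, U n‖ = ‖(H : ℂ) * ∑ n ∈ Finset.range X, U n‖ := by
      rw [norm_mul, Complex.norm_natCast]
    rw [e1]
    have := norm_sub_norm_le ((H : ℂ) * ∑ n ∈ Finset.range X, U n) (∑ n ∈ Finset.range X, T n)
    rw [← norm_neg, neg_sub] at hTS
    linarith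
  have h6 : Real.sqrt (X * (H * X + H ^ 2 * (δ * X + 2 * H))) =
      H * (X * Real.sqrt (1 / H + δ + 2 * H / X)) := by
    have e1 : (X : ℝ) * (H * X + H ^ 2 * (δ * X + 2 * H)) =
        (H * X) ^ 2 * (1 / H + δ + 2 * H / X) := by
      field_simp
      ring
    rw [e1, Real.sqrt_mul (by positivity), Real.sqrt_sq (by positivity)]
    ring
  rw [h6] at h5
  have h7 : (H : ℝ) * ‖∑ n ∈ Finset.range X, U n‖ ≤
      H * (2 * H + X * Real.sqrt (1 / H + δ + 2 * H / X)) := by
    refine h5.trans (le_of_eq ?_)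
    ring
  exact le_of_mul_le_mul_left h7 hHr

/-! ### iteration -/

/-- all `j`-fold differences with steps below `H` satisfy the hypotheses of Kusmin and Landau -/
def Good (H X : ℕ) (θ : ℝ) : ℕ → (ℕ → ℝ) → Prop
  | 0, g => (∀ n < X, θ ≤ g (n + 1) - g n) ∧ (∀ n < X, g (n + 1) - g n ≤ 2 * Real.pi - θ) ∧
      (∀ n, n + 1 < X → g (n + 2) - g (n + 1) ≤ g (n + 1) - g n)
  | j + 1, g => ∀ s, 1 ≤ s → s < H → Good H X θ j (fun n => g (n + s) - g n)

/-- `H ^ (-1 / 2 ^ j)` -/
noncomputable def uu (H j : ℕ) : ℝ := (H : ℝ) ^ (-(1 / 2 ^ j : ℝ))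

theorem uu_pos {H : ℕ} (hH : 1 ≤ H) (j : ℕ) : 0 < uu H j :=
  Real.rpow_pos_of_pos (by exact_mod_cast hH) _

theorem uu_le_one {H : ℕ} (hH : 1 ≤ H) (j : ℕ) : uu H j ≤ 1 :=
  Real.rpow_le_one_of_one_le_of_nonpos (by exact_mod_cast hH) (by
    have : (0 : ℝ) < 1 / 2 ^ j := by positivity
    linarith)

theorem uu_zero {H : ℕ} : uu H 0 = 1 / H := by
  unfold uu
  rw [pow_zero, div_one, Real.rpow_neg_one, one_div]

theorem uu_sq {H : ℕ} (hH : 1 ≤ H) (j : ℕ) : uu H (j + 1) ^ 2 = uu H j := by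
  unfold uu
  have h0 : (0 : ℝ) ≤ H := by positivity
  rw [← Real.rpow_natCast, ← Real.rpow_mul h0]
  congr 1
  rw [pow_succ]
  push_cast
  field_simp

theorem inv_le_uu {H : ℕ} (hH : 1 ≤ H) (j : ℕ) : 1 / (H : ℝ) ≤ uu H j := by
  rw [← uu_zero]
  unfold uu
  apply Real.rpow_le_rpow_of_exponent_le (by exact_mod_cast hH)
  have h1 : (1 : ℝ) ≤ 2 ^ j := one_le_pow₀ (by norm_num)
  have h2 : (1 : ℝ) / 2 ^ j ≤ 1 := by
    rw [div_le_one (by positivity)]
    exact h1
  rw [pow_zero, div_one]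
  linarith

theorem good_sum {H X : ℕ} {θ : ℝ} (hθ : 0 < θ) (hH : 1 ≤ H) (hX1 : 1 ≤ X)
    (hX : 2 * (H : ℝ) ^ 2 ≤ X) (h1 : 2 * Real.pi / θ ≤ 4 / H * X) :
    ∀ (j : ℕ) (g : ℕ → ℝ), Good H X θ j g →
      ‖∑ n ∈ Finset.range X, E (g n)‖ ≤ 4 * uu H j * X := by
  have hHr : (0 : ℝ) < H := by exact_mod_cast hH
  have hXr : (0 : ℝ) < X := by exact_mod_cast hX1
  intro j
  induction j with
  | zero =>
    rintro g ⟨g0, g1, g2⟩
    refine (kusmin_landau hθ g0 g1 g2).trans (h1.trans (le_of_eq ?_))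
    rw [uu_zero]
    ring
  | succ j ih =>
    intro g hg
    have hu := uu_pos hH (j + 1)
    have hu1 := uu_le_one hH (j + 1)
    have hu0 := uu_pos hH j
    have h2 := vdc hX1 hH (U := fun n => E (g n)) (fun n => (norm_E _).le)
      (δ := 4 * uu H j) (by positivity) (fun s hs1 hs2 => by
        have := ih _ (hg s hs1 hs2)
        refine le_trans (le_of_eq ?_) this
        congr 1
        refine Finset.sum_congr rfl fun n _ => ?_
        rw [E_sub])
    refine h2.trans ?_
    have h3 : 1 / (H : ℝ) ≤ uu H (j + 1) ^ 2 := by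
      rw [uu_sq hH]
      exact inv_le_uu hH j
    have h4 : 2 * (H : ℝ) / X ≤ uu H (j + 1) ^ 2 := by
      refine le_trans ?_ h3
      rw [div_le_div_iff₀ hXr hHr]
      nlinarith
    have h5 : Real.sqrt (1 / H + 4 * uu H j + 2 * H / X) ≤ 5 / 2 * uu H (j + 1) := by
      rw [← Real.sqrt_sq (show (0 : ℝ) ≤ 5 / 2 * uu H (j + 1) by positivity)]
      apply Real.sqrt_le_sqrt
      rw [← uu_sq hH j]
      nlinarith
    have h6 : 2 * (H : ℝ) ≤ uu H (j + 1) * X := by
      have h7 : 2 * (H : ℝ) / X ≤ uu H (j + 1) := by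
        refine h4.trans ?_
        rw [sq]
        calc uu H (j + 1) * uu H (j + 1) ≤ uu H (j + 1) * 1 :=
              mul_le_mul_of_nonneg_left hu1 hu.le
          _ = uu H (j + 1) := mul_one _
      rw [div_le_iff₀ hXr] at h7
      exact h7
    have h8 : (X : ℝ) * Real.sqrt (1 / H + 4 * uu H j + 2 * H / X) ≤
        X * (5 / 2 * uu H (j + 1)) := mul_le_mul_of_nonneg_left h5 hXr.le
    have h9 : 0 < uu H (j + 1) * X := by positivity
    linarith

end Pool.Agent.Lib.MP_3e612f_nt.Loc
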