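import Pool.Agent.Lib.MP_3e612f_nt.Loc.KthA

/-!
LOCAL, exponential sums, part B: the differences of the logarithm and the sums of
`exp (i t log (n + A))` for one window of `t`.
-/

set_option autoImplicit false

namespace Pool.Agent.Lib.MP_3e612f_nt.Loc

/-- iterated difference with the steps in the list -/
def Df : List ℝ → (ℝ → ℝ) → ℝ → ℝ
  | [], f => f
  | s :: S, f => Df S (fun x => f (x + s) - f x)

theorem Df_sub (S : List ℝ) : ∀ (f : ℝ → ℝ) (s x : ℝ),
    Df S (fun y => f (y + s) - f y) x = Df S f (x + s) - Df S f x := by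
  induction S with
  | nil => intro f s x; rfl
  | cons a S ih =>
    intro f s x
    change Df S (fun y => (f (y + a + s) - f (y + a)) - (f (y + s) - f y)) x = _
    have e : (fun y => (f (y + a + s) - f (y + a)) - (f (y + s) - f y)) =
        (fun y => (fun z => f (z + a) - f z) (y + s) - (fun z => f (z + a) - f z) y) := by
      funext y
      simp only
      rw [show y + a + s = y + s + a by ring]
      ring
    rw [e]
    exact ih (fun z => f (z + a) - f z) s x

theorem Df_mul (S : List ℝ) : ∀ (c : ℝ) (f : ℝ → ℝ) (x : ℝ),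
    Df S (fun y => c * f y) x = c * Df S f x := by
  induction S with
  | nil => intro c f x; rfl
  | cons a S ih =>
    intro c f x
    change Df S (fun y => c * f (y + a) - c * f y) x = _
    have e : (fun y => c * f (y + a) - c * f y) = (fun y => c * (fun z => f (z + a) - f z) y) := by
      funext y
      simp only
      ring
    rw [e]
    exact ih c (fun z => f (z + a) - f z) x

/-- the mean value theorem for iterated differences -/
theorem Df_mvt : ∀ (S : List ℝ), (∀ s ∈ S, 0 < s) → ∀ (f : ℕ → ℝ → ℝ),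
    (∀ j < S.length, ∀ x, 0 < x → HasDerivAt (f j) (f (j + 1) x) x) → ∀ y, 0 < y →
    ∃ ξ, y ≤ ξ ∧ ξ ≤ y + S.sum ∧ Df S (f 0) y = S.prod * f S.length ξ := by
  intro S
  induction S with
  | nil =>
    intro _ f _ y _
    exact ⟨y, le_rfl, by simp, by simp [Df]⟩
  | cons s S ih =>
    intro hS f hf y hy
    have hs : 0 < s := hS s (by simp)
    obtain ⟨ξ, h1, h2, h3⟩ := ih (fun a ha => hS a (by simp [ha]))
      (fun j x => f j (x + s) - f j x) (fun j hj x hx => by
        have h4 := hf j (by simp; omega) (x + s) (by linarith)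
        have h5 := hf j (by simp; omega) x hx
        have h6 : HasDerivAt (fun x => f j (x + s)) (f (j + 1) (x + s)) x := by
          have := h4.comp_add_const x s
          exact this
        exact h6.sub h5) y hy
    have hξ : 0 < ξ := hy.trans_le h1
    obtain ⟨ζ, h4, h5⟩ := exists_hasDerivAt_eq_slope (f S.length) (f (S.length + 1))
      (show ξ < ξ + s by linarith)
      (fun x hx => (hf S.length (by simp) x (hξ.trans_le hx.1)).continuousAt.continuousWithinAt)
      (fun x hx => hf S.length (by simp) x (hξ.trans hx.1))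
    refine ⟨ζ, h1.trans h4.1.le, ?_, ?_⟩
    · rw [List.sum_cons]
      linarith [h4.2]
    · change Df S (fun x => f 0 (x + s) - f 0 x) y = _
      have h6 : f S.length (ξ + s) - f S.length ξ = s * f (S.length + 1) ζ := by
        rw [h5, show ξ + s - ξ = s by ring]
        field_simp
      rw [h3, List.prod_cons, List.length_cons, h6]
      ring

/-- the derivatives of the logarithm -/
noncomputable def lg : ℕ → ℝ → ℝ
  | 0, x => Real.log x
  | j + 1, x => (-1) ^ j * (j.factorial : ℝ) / x ^ (j + 1)

theorem lg_zero : lg 0 = Real.log := by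
  funext x
  rfl

theorem lg_succ (j : ℕ) (x : ℝ) : lg (j + 1) x = (-1) ^ j * (j.factorial : ℝ) / x ^ (j + 1) := rfl

theorem lg_deriv (j : ℕ) (x : ℝ) (hx : 0 < x) : HasDerivAt (lg j) (lg (j + 1) x) x := by
  cases j with
  | zero =>
    have := Real.hasDerivAt_log hx.ne'
    rw [lg_zero, lg_succ]
    simpa using this
  | succ j =>
    have h1 : HasDerivAt (fun x : ℝ => x ^ (j + 1)) ((j + 1 : ℕ) * x ^ j) x := by
      have := hasDerivAt_pow (j + 1) x
      simpa using this
    have h2 := (h1.inv (by positivity)).const_mul ((-1) ^ j * (j.factorial : ℝ))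
    have e1 : lg (j + 1) = fun x : ℝ => (-1) ^ j * (j.factorial : ℝ) * (x ^ (j + 1))⁻¹ := by
      funext y
      rw [lg_succ, div_eq_mul_inv]
    have e2 : lg (j + 1 + 1) x = (-1) ^ j * (j.factorial : ℝ) *
        (-(((j + 1 : ℕ) : ℝ) * x ^ j) / (x ^ (j + 1)) ^ 2) := by
      rw [lg_succ, Nat.factorial_succ]
      push_cast
      field_simp
      ring
    rw [e1, e2]
    exact h2

/-- the `k`-fold differences of the logarithm, `k ≥ 1` -/
theorem Df_log {S : List ℝ} {j : ℕ} (hl : S.length = j + 1) (hS : ∀ s ∈ S, 0 < s) {y : ℝ}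
    (hy : 0 < y) : (j.factorial : ℝ) * S.prod / (y + S.sum) ^ (j + 1) ≤
      (-1) ^ j * Df S Real.log y ∧
      (-1) ^ j * Df S Real.log y ≤ (j.factorial : ℝ) * S.prod / y ^ (j + 1) := by
  obtain ⟨ξ, h1, h2, h3⟩ := Df_mvt S hS lg (fun j _ x hx => lg_deriv j x hx) y hy
  have e1 : lg 0 = Real.log := by
    funext x
    rfl
  rw [e1, hl] at h3
  have hP : 0 < S.prod := List.prod_pos hS
  have hξ : 0 < ξ := hy.trans_le h1
  have h4 : (-1) ^ j * Df S Real.log y = (j.factorial : ℝ) * S.prod / ξ ^ (j + 1) := by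
    rw [h3]
    change (-1) ^ j * (S.prod * ((-1) ^ j * (j.factorial : ℝ) / ξ ^ (j + 1))) = _
    have h5 : ((-1 : ℝ) ^ j) * (-1) ^ j = 1 := by
      rw [← mul_pow]
      norm_num
    calc (-1) ^ j * (S.prod * ((-1) ^ j * (j.factorial : ℝ) / ξ ^ (j + 1))) =
        ((-1 : ℝ) ^ j * (-1) ^ j) * ((j.factorial : ℝ) * S.prod / ξ ^ (j + 1)) := by ring
      _ = _ := by rw [h5, one_mul]
  rw [h4]
  constructor
  · exact div_le_div_of_nonneg_left (by positivity) (by positivity)
      (pow_le_pow_left₀ hξ.le h2 _)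
  · exact div_le_div_of_nonneg_left (by positivity) (by positivity)
      (pow_le_pow_left₀ hy.le h1 _)

/-- from functions of a real variable to sequences -/
theorem good_of {H X : ℕ} {θ A : ℝ} : ∀ (j : ℕ) (F : ℝ → ℝ),
    (∀ S : List ℝ, S.length = j → (∀ s ∈ S, 1 ≤ s ∧ s ≤ H) → ∀ n < X,
      θ ≤ Df S F (n + A + 1) - Df S F (n + A) ∧
      Df S F (n + A + 1) - Df S F (n + A) ≤ 2 * Real.pi - θ ∧
      Df S F (n + A + 1 + 1) - Df S F (n + A + 1) ≤ Df S F (n + A + 1) - Df S F (n + A)) →
    Good H X θ j (fun n => F (n + A)) := by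
  intro j
  induction j with
  | zero =>
    intro F h
    refine ⟨fun n hn => ?_, fun n hn => ?_, fun n hn => ?_⟩
    · have := (h [] rfl (by simp) n hn).1
      simp only [Df] at this
      simp only
      rw [show ((n + 1 : ℕ) : ℝ) + A = n + A + 1 by push_cast; ring]
      exact this
    · have := (h [] rfl (by simp) n hn).2.1
      simp only [Df] at this
      simp only
      rw [show ((n + 1 : ℕ) : ℝ) + A = n + A + 1 by push_cast; ring]
      exact this
    · have := (h [] rfl (by simp) n (by omega)).2.2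
      simp only [Df] at this
      simp only
      rw [show ((n + 1 : ℕ) : ℝ) + A = n + A + 1 by push_cast; ring,
        show ((n + 2 : ℕ) : ℝ) + A = n + A + 1 + 1 by push_cast; ring]
      exact this
  | succ j ih =>
    intro F h s hs1 hs2
    have := ih (fun x => F (x + s) - F x) (fun S hl hS n hn => by
      have := h ((s : ℝ) :: S) (by simp [hl]) (by
        intro a ha
        rcases List.mem_cons.1 ha with rfl | ha
        · exact ⟨by exact_mod_cast hs1, by exact_mod_cast hs2.le⟩
        · exact hS a ha) n hn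
      exact this)
    have e : (fun n : ℕ => F (((n + s : ℕ) : ℝ) + A) - F ((n : ℝ) + A)) =
        (fun n : ℕ => F ((n : ℝ) + A + s) - F ((n : ℝ) + A)) := by
      funext n
      rw [show ((n + s : ℕ) : ℝ) + A = n + A + s by push_cast; ring]
    rw [e]
    exact this

theorem sum_le_of {S : List ℝ} {H : ℝ} (h : ∀ s ∈ S, s ≤ H) : S.sum ≤ S.length * H := by
  induction S with
  | nil => simp
  | cons a S ih =>
    have h1 := ih (fun s hs => h s (by simp [hs]))
    have h2 := h a (by simp)
    simp only [List.sum_cons, List.length_cons]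
    push_cast
    linarith

theorem prod_ge_of {S : List ℝ} (h : ∀ s ∈ S, 1 ≤ s) : 1 ≤ S.prod := by
  induction S with
  | nil => simp
  | cons a S ih =>
    have h1 := ih (fun s hs => h s (by simp [hs]))
    have h2 := h a (by simp)
    rw [List.prod_cons]
    nlinarith

theorem prod_le_of {S : List ℝ} {H : ℝ} (hH : 0 ≤ H) (h : ∀ s ∈ S, 1 ≤ s ∧ s ≤ H) :
    S.prod ≤ H ^ S.length := by
  induction S with
  | nil => simp
  | cons a S ih =>
    have h1 := ih (fun s hs => h s (by simp [hs]))
    have h2 := h a (by simp)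
    have h3 := prod_ge_of (fun s hs => (h s (by simp [hs])).1 : ∀ s ∈ S, 1 ≤ s)
    rw [List.prod_cons, List.length_cons, pow_succ, mul_comm]
    exact mul_le_mul h1 h2.2 (by linarith [h2.1]) (by positivity)

/-- **One window**, positive sign. -/
theorem window_pos {H X j : ℕ} {A τ : ℝ} (hA : 1 ≤ A) (hH : 1 ≤ H) (hX1 : A / H ≤ X)
    (hX2 : (X : ℝ) ≤ 2 * A) (h1 : ((j : ℝ) + 1) * H ≤ A) (h2 : 2 * (H : ℝ) ^ 3 ≤ A)
    (hτ : 0 < τ) (h3 : τ * j.factorial * (H : ℝ) ^ j ≤ A ^ (j + 1))
    (h4 : 8 * 4 ^ j * (H : ℝ) ^ 2 * A ^ j ≤ τ) :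
    ‖∑ n ∈ Finset.range X, E ((-1) ^ j * τ * Real.log (n + A))‖ ≤ 4 * uu H j * X := by
  have hpi := Real.pi_gt_three
  have hpi2 := Real.pi_le_four
  have hHr : (1 : ℝ) ≤ H := by exact_mod_cast hH
  have hA0 : 0 < A := by linarith
  have hX0 : (0 : ℝ) < X := lt_of_lt_of_le (by positivity) hX1
  have hX1' : 1 ≤ X := by exact_mod_cast hX0
  have hf1 : (1 : ℝ) ≤ j.factorial := by exact_mod_cast Nat.succ_le_of_lt j.factorial_pos
  set θ : ℝ := τ * j.factorial / (4 * A) ^ (j + 1) with hθ
  have hθ0 : 0 < θ := by positivity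
  have hθ1 : θ ≤ 1 := by
    rw [hθ, div_le_one (by positivity)]
    calc τ * j.factorial ≤ τ * j.factorial * (H : ℝ) ^ j := by
          have : (1 : ℝ) ≤ (H : ℝ) ^ j := one_le_pow₀ hHr
          have h5 : 0 < τ * j.factorial := by positivity
          nlinarith
      _ ≤ A ^ (j + 1) := h3
      _ ≤ (4 * A) ^ (j + 1) := pow_le_pow_left₀ hA0.le (by linarith) _
  refine good_sum hθ0 hH hX1' ?_ ?_ j _ ?_
  · -- size of X
    have : 2 * (H : ℝ) ^ 2 * H ≤ A := by
      calc 2 * (H : ℝ) ^ 2 * H = 2 * (H : ℝ) ^ 3 := by ring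
        _ ≤ A := h2
    refine le_trans ?_ hX1
    rw [le_div_iff₀ (by linarith)]
    exact this
  · -- the Kusmin Landau bound
    have h5 : 2 * Real.pi / θ = 2 * Real.pi * (4 * A) ^ (j + 1) / (τ * j.factorial) := by
      rw [hθ]
      field_simp
    rw [h5, div_le_iff₀ (by positivity)]
    have h6 : 4 / (H : ℝ) * (A / H) ≤ 4 / H * X := mul_le_mul_of_nonneg_left hX1 (by positivity)
    have h7 : 2 * Real.pi * (4 * A) ^ (j + 1) ≤ 4 / (H : ℝ) * (A / H) * (τ * 1) := by
      have h8 : 4 / (H : ℝ) * (A / H) * (8 * 4 ^ j * (H : ℝ) ^ 2 * A ^ j) =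
          8 * (4 * A) ^ (j + 1) := by
        rw [mul_pow]
        field_simp
        ring
      calc 2 * Real.pi * (4 * A) ^ (j + 1) ≤ 8 * (4 * A) ^ (j + 1) :=
            mul_le_mul_of_nonneg_right (by linarith) (by positivity)
        _ = 4 / (H : ℝ) * (A / H) * (8 * 4 ^ j * (H : ℝ) ^ 2 * A ^ j) := h8.symm
        _ ≤ 4 / (H : ℝ) * (A / H) * (τ * 1) := by
            rw [mul_one]
            exact mul_le_mul_of_nonneg_left h4 (by positivity)
    refine h7.trans ?_
    refine mul_le_mul h6 ?_ (by positivity) (by positivity)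
    exact mul_le_mul_of_nonneg_left hf1 hτ.le
  · -- the differences
    have := good_of (H := H) (X := X) (θ := θ) (A := A) j
      (fun x => (-1) ^ j * τ * Real.log x) (fun S hl hS n hn => by
        have hn0 : (0 : ℝ) ≤ n := by positivity
        have hnX : (n : ℝ) + 1 ≤ X := by exact_mod_cast hn
        have hy : 0 < (n : ℝ) + A := by linarith
        have hy1 : 0 < (n : ℝ) + A + 1 := by linarith
        have hS1 : ∀ s ∈ (1 : ℝ) :: S, 0 < s := by
          intro s hs
          rcases List.mem_cons.1 hs with rfl | hs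
          · norm_num
          · linarith [(hS s hs).1]
        have hS2 : ∀ s ∈ (1 : ℝ) :: 1 :: S, 0 < s := by
          intro s hs
          rcases List.mem_cons.1 hs with rfl | hs
          · norm_num
          · exact hS1 s hs
        have hl1 : ((1 : ℝ) :: S).length = j + 1 := by simp [hl]
        have hl2 : ((1 : ℝ) :: 1 :: S).length = j + 1 + 1 := by simp [hl]
        have hsum : S.sum ≤ j * H := by
          have := sum_le_of (S := S) (H := H) (fun s hs => (hS s hs).2)
          rw [hl] at this
          exact this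
        have hsum0 : 0 ≤ S.sum := List.sum_nonneg (fun s hs => by linarith [(hS s hs).1])
        have hprod1 : 1 ≤ S.prod := prod_ge_of (fun s hs => (hS s hs).1)
        have hprod2 : S.prod ≤ (H : ℝ) ^ j := by
          have := prod_le_of (S := S) (H := H) (by positivity) hS
          rw [hl] at this
          exact this
        obtain ⟨b1, b2⟩ := Df_log hl1 hS1 hy
        obtain ⟨c1, c2⟩ := Df_log hl2 hS2 hy
        have e1 : Df (1 :: S) Real.log ((n : ℝ) + A) =
            Df S Real.log ((n : ℝ) + A + 1) - Df S Real.log ((n : ℝ) + A) := by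
          change Df S (fun y => Real.log (y + 1) - Real.log y) _ = _
          rw [Df_sub]
        have e2 : Df (1 :: 1 :: S) Real.log ((n : ℝ) + A) =
            (Df S Real.log ((n : ℝ) + A + 1 + 1) - Df S Real.log ((n : ℝ) + A + 1)) -
              (Df S Real.log ((n : ℝ) + A + 1) - Df S Real.log ((n : ℝ) + A)) := by
          change Df (1 :: S) (fun y => Real.log (y + 1) - Real.log y) _ = _
          rw [Df_sub]
          change Df S (fun y => Real.log (y + 1) - Real.log y) _ -
            Df S (fun y => Real.log (y + 1) - Real.log y) _ = _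
          rw [Df_sub, Df_sub]
        have m1 : ∀ x : ℝ, Df S (fun x => (-1) ^ j * τ * Real.log x) x =
            (-1) ^ j * τ * Df S Real.log x := fun x => Df_mul S _ _ x
        rw [m1, m1, m1]
        simp only [List.prod_cons, List.sum_cons, one_mul] at b1 b2 c1 c2
        rw [e1] at b1 b2
        rw [e2] at c1
        refine ⟨?_, ?_, ?_⟩
        · have h5 : (-1) ^ j * τ * Df S Real.log ((n : ℝ) + A + 1) -
              (-1) ^ j * τ * Df S Real.log ((n : ℝ) + A) =
              τ * ((-1) ^ j * (Df S Real.log ((n : ℝ) + A + 1) -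
                Df S Real.log ((n : ℝ) + A))) := by ring
          rw [h5]
          refine le_trans ?_ (mul_le_mul_of_nonneg_left b1 hτ.le)
          rw [hθ, mul_div_assoc]
          refine mul_le_mul_of_nonneg_left ?_ hτ.le
          refine div_le_div₀ (by positivity) ?_ (by positivity) ?_
          · nlinarith
          · refine pow_le_pow_left₀ (by positivity) ?_ _
            nlinarith
        · have h5 : (-1) ^ j * τ * Df S Real.log ((n : ℝ) + A + 1) -
              (-1) ^ j * τ * Df S Real.log ((n : ℝ) + A) =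
              τ * ((-1) ^ j * (Df S Real.log ((n : ℝ) + A + 1) -
                Df S Real.log ((n : ℝ) + A))) := by ring
          rw [h5]
          refine (mul_le_mul_of_nonneg_left b2 hτ.le).trans ?_
          have h6 : τ * ((j.factorial : ℝ) * S.prod / ((n : ℝ) + A) ^ (j + 1)) ≤ 1 := by
            rw [← mul_div_assoc, div_le_one (by positivity)]
            calc τ * ((j.factorial : ℝ) * S.prod) ≤ τ * ((j.factorial : ℝ) * (H : ℝ) ^ j) := by
                  gcongr
              _ = τ * j.factorial * (H : ℝ) ^ j := by ring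
              _ ≤ A ^ (j + 1) := h3
              _ ≤ ((n : ℝ) + A) ^ (j + 1) := pow_le_pow_left₀ hA0.le (by linarith) _
          linarith
        · have h5 : 0 ≤ (-1) ^ (j + 1) *
              ((Df S Real.log ((n : ℝ) + A + 1 + 1) - Df S Real.log ((n : ℝ) + A + 1)) -
              (Df S Real.log ((n : ℝ) + A + 1) - Df S Real.log ((n : ℝ) + A))) :=
            le_trans (by positivity) c1
          rw [pow_succ] at h5
          have h6 := mul_nonneg hτ.le h5
          linarith)
    exact this

/-- **One window**. -/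
theorem window {H X j : ℕ} {A t : ℝ} (hA : 1 ≤ A) (hH : 1 ≤ H)
    (hX2 : (X : ℝ) ≤ 2 * A) (h1 : ((j : ℝ) + 1) * H ≤ A) (h2 : 2 * (H : ℝ) ^ 3 ≤ A)
    (h3 : |t| * j.factorial * (H : ℝ) ^ j ≤ A ^ (j + 1))
    (h4 : 8 * 4 ^ j * (H : ℝ) ^ 2 * A ^ j ≤ |t|) :
    ‖∑ n ∈ Finset.range X, E (t * Real.log (n + A))‖ ≤ 8 * A * uu H j := by
  have hHr : (1 : ℝ) ≤ H := by exact_mod_cast hH
  have hA0 : 0 < A := by linarith
  have hu := uu_pos hH j
  have ht : 0 < |t| := lt_of_lt_of_le (by positivity) h4
  rcases lt_or_ge (X : ℝ) (A / H) with hX | hX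
  · refine (norm_sum_le _ _).trans ?_
    simp only [norm_E, Finset.sum_const, Finset.card_range, nsmul_eq_mul, mul_one]
    have h5 := inv_le_uu hH j
    calc (X : ℝ) ≤ A / H := hX.le
      _ = A * (1 / H) := by ring
      _ ≤ A * uu H j := mul_le_mul_of_nonneg_left h5 hA0.le
      _ ≤ 8 * A * uu H j := by nlinarith [mul_pos hA0 hu]
  · have key := window_pos (τ := |t|) hA hH hX hX2 h1 h2 ht h3 h4
    have h5 : ‖∑ n ∈ Finset.range X, E (t * Real.log (n + A))‖ =
        ‖∑ n ∈ Finset.range X, E ((-1) ^ j * |t| * Real.log (n + A))‖ := by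
      have h6 : t = (-1) ^ j * |t| ∨ t = -((-1) ^ j * |t|) := by
        rcases neg_one_pow_eq_or ℝ j with h7 | h7 <;> rcases abs_choice t with h8 | h8 <;>
          rw [h7, h8]
        · left; ring
        · right; ring
        · right; ring
        · left; ring
      rcases h6 with h6 | h6
      · rw [← h6]
      · have e : ∀ n : ℕ, E (t * Real.log (n + A)) =
            (starRingEnd ℂ) (E ((-1) ^ j * |t| * Real.log (n + A))) := by
          intro n
          rw [← E_neg]
          congr 1
          conv_lhs => rw [h6]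
          ring
        simp only [e]
        rw [← map_sum, RCLike.norm_conj]
    rw [h5]
    refine key.trans ?_
    calc 4 * uu H j * X ≤ 4 * uu H j * (2 * A) := mul_le_mul_of_nonneg_left hX2 (by positivity)
      _ = 8 * A * uu H j := by ring

end Pool.Agent.Lib.MP_3e612f_nt.Loc
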